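import Mathlib

/-!
# MP_695dce_co, Q1: three sizes suffice with ratio tending to 1

For every large `n` the unit cube is tiled by exactly `n` cubes of at most three sizes, the ratio of the largest
to the smallest size tending to 1.  Sizes: `1/t`, `(k+1)/(k t)`, `(k+2)/(k t)`.
-/

set_option autoImplicit false

namespace Pool.Agent.Results.MP_695dce_co.ThreeSizes

/-- the closed axis-parallel cube with lower corner `c` and side `a` -/
def cube (c : Fin 3 → ℝ) (a : ℝ) : Set (Fin 3 → ℝ) := {x | ∀ m, c m ≤ x m ∧ x m ≤ c m + a}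

/-- the cubes with lower corners `c i` and sides `a i > 0` form a tiling of the unit cube `[0,1]^3`:
their union is the unit cube and their interiors are pairwise disjoint -/
def IsTiling (n : ℕ) (c : Fin n → Fin 3 → ℝ) (a : Fin n → ℝ) : Prop :=
  (∀ i, 0 < a i) ∧ (∀ i j, i ≠ j → Disjoint (interior (cube (c i) (a i))) (interior (cube (c j) (a j)))) ∧
    ⋃ i, cube (c i) (a i) = cube 0 1

/-- half-open cube -/
def hc (c : Fin 3 → ℝ) (a : ℝ) : Set (Fin 3 → ℝ) := {x | ∀ m, c m ≤ x m ∧ x m < c m + a}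

/-- `S` is partitioned into `n` half-open cubes with sides in `A` -/
def Til (A : Set ℝ) (n : ℕ) (S : Set (Fin 3 → ℝ)) : Prop :=
  ∃ (c : Fin n → Fin 3 → ℝ) (a : Fin n → ℝ), (∀ i, a i ∈ A) ∧
    (∀ i j, i ≠ j → Disjoint (hc (c i) (a i)) (hc (c j) (a j))) ∧ ⋃ i, hc (c i) (a i) = S

theorem til_of_fintype (A : Set ℝ) {ι : Type*} [Fintype ι] (c : ι → Fin 3 → ℝ) (a : ι → ℝ)
    (S : Set (Fin 3 → ℝ)) (h1 : ∀ i, a i ∈ A)
    (h2 : ∀ i j, i ≠ j → Disjoint (hc (c i) (a i)) (hc (c j) (a j))) (h3 : ⋃ i, hc (c i) (a i) = S) :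
    Til A (Fintype.card ι) S := by
  refine ⟨fun i => c ((Fintype.equivFin ι).symm i), fun i => a ((Fintype.equivFin ι).symm i),
    fun i => h1 _, fun i j hij => h2 _ _ (fun h => hij ((Fintype.equivFin ι).symm.injective h)), ?_⟩
  rw [← h3]
  exact (Fintype.equivFin ι).symm.surjective.iUnion_comp (fun i => hc (c i) (a i))

theorem til_iUnion (A : Set ℝ) {ι : Type*} [DecidableEq ι] (s : Finset ι) (n : ι → ℕ)
    (S : ι → Set (Fin 3 → ℝ)) (h1 : ∀ i ∈ s, Til A (n i) (S i))
    (h2 : ∀ i ∈ s, ∀ j ∈ s, i ≠ j → Disjoint (S i) (S j)) : Til A (∑ i ∈ s, n i) (⋃ i ∈ s, S i) := by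
  classical
  have h1' : ∀ i : s, Til A (n i) (S i) := fun i => h1 i i.2
  choose c a ha hd hu using h1'
  have key := til_of_fintype A (ι := Σ i : s, Fin (n i)) (fun p => c p.1 p.2) (fun p => a p.1 p.2)
    (⋃ i ∈ s, S i) (fun p => ha p.1 p.2) ?_ ?_
  · have hcard : Fintype.card (Σ i : s, Fin (n i)) = ∑ i ∈ s, n i := by
      rw [Fintype.card_sigma]
      simp only [Fintype.card_fin]
      rw [← Finset.sum_coe_sort s (fun i => n i)]
    rwa [hcard] at key
  · rintro ⟨i, u⟩ ⟨j, v⟩ hne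
    by_cases hij : i = j
    · subst hij
      exact hd i u v (fun h => hne (by rw [h]))
    · have h0 : (i : ι) ≠ j := fun h => hij (Subtype.ext h)
      refine Disjoint.mono ?_ ?_ (h2 i i.2 j j.2 h0)
      · rw [← hu i]; exact Set.subset_iUnion (fun k => hc (c i k) (a i k)) u
      · rw [← hu j]; exact Set.subset_iUnion (fun k => hc (c j k) (a j k)) v
  · ext x
    simp only [Set.mem_iUnion, Sigma.exists]
    constructor
    · rintro ⟨i, u, hx⟩
      refine ⟨i, i.2, ?_⟩
      rw [← hu i]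
      exact Set.mem_iUnion.2 ⟨u, hx⟩
    · rintro ⟨i, hi, hx⟩
      rw [← hu ⟨i, hi⟩] at hx
      obtain ⟨u, hx⟩ := Set.mem_iUnion.1 hx
      exact ⟨⟨i, hi⟩, u, hx⟩

theorem til_union (A : Set ℝ) (n m : ℕ) (S T : Set (Fin 3 → ℝ)) (h1 : Til A n S) (h2 : Til A m T)
    (h : Disjoint S T) : Til A (n + m) (S ∪ T) := by
  have := til_iUnion A (Finset.univ : Finset Bool) (fun b => if b then n else m)
    (fun b => if b then S else T) ?_ ?_
  · have e : (⋃ i ∈ (Finset.univ : Finset Bool), if i = true then S else T) = S ∪ T := by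
      ext x; simp [or_comm]
    rw [e] at this
    simpa using this
  · intro b _; cases b <;> simpa
  · intro b _ b' _ hb
    cases b <;> cases b' <;> simp_all [Disjoint.symm]

/-- a cube of side `N s` is cut into `N^3` cubes of side `s` -/
theorem til_grid (A : Set ℝ) (v : Fin 3 → ℝ) (N : ℕ) (s : ℝ) (hs : 0 < s) (hA : s ∈ A) :
    Til A (N ^ 3) (hc v (N * s)) := by
  have key := til_of_fintype A (ι := Fin 3 → Fin N) (fun j m => v m + s * (j m : ℕ)) (fun _ => s)
    (hc v (N * s)) (fun _ => hA) ?_ ?_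
  · simpa using key
  · intro i j hij
    rw [Set.disjoint_left]
    intro x hx hx'
    apply hij
    funext m
    obtain ⟨h1, h2⟩ := hx m
    obtain ⟨h3, h4⟩ := hx' m
    have e1 : (i m : ℕ) < (j m : ℕ) + 1 := by
      have : s * ((i m : ℕ) : ℝ) < s * (((j m : ℕ) : ℝ) + 1) := by linarith
      have := lt_of_mul_lt_mul_left this hs.le
      exact_mod_cast this
    have e2 : (j m : ℕ) < (i m : ℕ) + 1 := by
      have : s * ((j m : ℕ) : ℝ) < s * (((i m : ℕ) : ℝ) + 1) := by linarith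
      have := lt_of_mul_lt_mul_left this hs.le
      exact_mod_cast this
    exact Fin.ext (by omega)
  · ext x
    simp only [Set.mem_iUnion]
    constructor
    · rintro ⟨j, hj⟩ m
      obtain ⟨h1, h2⟩ := hj m
      have h3 : ((j m : ℕ) : ℝ) + 1 ≤ N := by exact_mod_cast (j m).2
      have h4 : (0 : ℝ) ≤ ((j m : ℕ) : ℝ) := Nat.cast_nonneg _
      constructor
      · have := mul_nonneg hs.le h4; linarith
      · have := mul_le_mul_of_nonneg_left h3 hs.le; linarith
    · intro hx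
      have hb : ∀ m, ⌊(x m - v m) / s⌋₊ < N := by
        intro m
        obtain ⟨h1, h2⟩ := hx m
        rw [Nat.floor_lt (div_nonneg (by linarith) hs.le), div_lt_iff₀ hs]
        linarith
      refine ⟨fun m => ⟨⌊(x m - v m) / s⌋₊, hb m⟩, ?_⟩
      intro m
      obtain ⟨h1, h2⟩ := hx m
      have h3 := Nat.floor_le (div_nonneg (sub_nonneg.2 h1) hs.le)
      have h4 := Nat.lt_floor_add_one ((x m - v m) / s)
      rw [le_div_iff₀ hs] at h3
      rw [div_lt_iff₀ hs] at h4
      constructor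
      · simp only; linarith
      · simp only; linarith

/-- the cells of a block of `b^3` cells whose lower corner is `z` -/
def cells (z : Fin 3 → ℕ) (b : ℕ) : Finset (Fin 3 → ℕ) :=
  Fintype.piFinset fun m => Finset.Ico (z m) (z m + b)

theorem card_cells (z : Fin 3 → ℕ) (b : ℕ) : (cells z b).card = b ^ 3 := by
  simp [cells, Fintype.card_piFinset]

theorem mem_cells (z : Fin 3 → ℕ) (b : ℕ) (w : Fin 3 → ℕ) :
    w ∈ cells z b ↔ ∀ m, z m ≤ w m ∧ w m < z m + b := by
  simp [cells, Fintype.mem_piFinset]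

/-- a point of the half-open block lies in exactly one cell -/
theorem block_eq (z : Fin 3 → ℕ) (b : ℕ) :
    hc (fun m => (z m : ℝ)) b = ⋃ w ∈ cells z b, hc (fun m => ((w m : ℕ) : ℝ)) 1 := by
  ext x
  simp only [Set.mem_iUnion, mem_cells, exists_prop]
  constructor
  · intro hx
    have h0 : ∀ m, 0 ≤ x m := fun m => le_trans (Nat.cast_nonneg _) (hx m).1
    refine ⟨fun m => ⌊x m⌋₊, ?_, ?_⟩
    · intro m
      refine ⟨Nat.le_floor (hx m).1, ?_⟩
      rw [Nat.floor_lt (h0 m)]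
      have := (hx m).2
      push_cast
      exact this
    · intro m
      exact ⟨Nat.floor_le (h0 m), Nat.lt_floor_add_one _⟩
  · rintro ⟨w, hw, hx⟩ m
    obtain ⟨h1, h2⟩ := hw m
    obtain ⟨h3, h4⟩ := hx m
    have h1' : ((z m : ℕ) : ℝ) ≤ w m := by exact_mod_cast h1
    have h2' : ((w m : ℕ) : ℝ) + 1 ≤ z m + b := by exact_mod_cast h2
    exact ⟨by linarith, by linarith⟩

theorem cell_disjoint (w w' : Fin 3 → ℕ) (h : w ≠ w') :
    Disjoint (hc (fun m => ((w m : ℕ) : ℝ)) 1) (hc (fun m => ((w' m : ℕ) : ℝ)) 1) := by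
  rw [Set.disjoint_left]
  intro x hx hx'
  apply h
  funext m
  obtain ⟨h1, h2⟩ := hx m
  obtain ⟨h3, h4⟩ := hx' m
  have e1 : (w m : ℕ) < w' m + 1 := by
    have : ((w m : ℕ) : ℝ) < (w' m : ℕ) + 1 := by linarith
    exact_mod_cast this
  have e2 : (w' m : ℕ) < w m + 1 := by
    have : ((w' m : ℕ) : ℝ) < (w m : ℕ) + 1 := by linarith
    exact_mod_cast this
  omega

/-- the main combinatorial construction: replace `b j` blocks -/
theorem til_main (A : Set ℝ) (hA1 : (1 : ℝ) ∈ A) (t p : ℕ) (hp : 0 < p) {ι : Type*} [DecidableEq ι]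
    (s : Finset ι) (z : ι → Fin 3 → ℕ) (b : ι → ℕ) (hb : ∀ j ∈ s, 0 < b j)
    (hA : ∀ j ∈ s, ((b j : ℝ) / p) ∈ A)
    (hsub : ∀ j ∈ s, cells (z j) (b j) ⊆ cells 0 t)
    (hdis : ∀ i ∈ s, ∀ j ∈ s, i ≠ j → Disjoint (cells (z i) (b i)) (cells (z j) (b j))) (n : ℕ)
    (hn : n + ∑ j ∈ s, (b j) ^ 3 = t ^ 3 + s.card * p ^ 3) :
    Til A n (hc 0 t) := by
  classical
  set U : Finset (Fin 3 → ℕ) := s.biUnion fun j => cells (z j) (b j) with hU
  have hUsub : U ⊆ cells 0 t := by
    intro w hw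
    obtain ⟨j, hj, hw⟩ := Finset.mem_biUnion.1 hw
    exact hsub j hj hw
  have hUcard : U.card = ∑ j ∈ s, (b j) ^ 3 := by
    rw [hU, Finset.card_biUnion]
    · simp only [card_cells]
    · intro i hi j hj hij
      exact hdis i hi j hj hij
  set G : Finset (Fin 3 → ℕ) := cells 0 t \ U with hG
  have hGcard : G.card + ∑ j ∈ s, (b j) ^ 3 = t ^ 3 := by
    rw [← hUcard, hG, Finset.card_sdiff_add_card_eq_card hUsub, card_cells]
  have hblock : ∀ j, hc (fun m => (z j m : ℝ)) (b j) = ⋃ w ∈ cells (z j) (b j), hc (fun m => ((w m : ℕ) : ℝ)) 1 :=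
    fun j => block_eq (z j) (b j)
  have T1 : Til A (∑ w ∈ G, 1) (⋃ w ∈ G, hc (fun m => ((w m : ℕ) : ℝ)) 1) := by
    apply til_iUnion
    · intro w _
      have := til_grid A (fun m => ((w m : ℕ) : ℝ)) 1 1 one_pos hA1
      simpa using this
    · intro w _ w' _ h
      exact cell_disjoint w w' h
  have T2 : Til A (∑ j ∈ s, p ^ 3) (⋃ j ∈ s, hc (fun m => (z j m : ℝ)) (b j)) := by
    apply til_iUnion
    · intro j hj
      have hp' : (0 : ℝ) < p := by exact_mod_cast hp
      have hb' : (0 : ℝ) < b j := by exact_mod_cast hb j hj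
      have := til_grid A (fun m => ((z j m : ℕ) : ℝ)) p ((b j : ℝ) / p) (div_pos hb' hp') (hA j hj)
      have e : (p : ℝ) * ((b j : ℝ) / p) = b j := by field_simp
      rwa [e] at this
    · intro i hi j hj hij
      rw [hblock i, hblock j]
      simp only [Set.disjoint_iUnion_left, Set.disjoint_iUnion_right]
      intro w hw w' hw'
      apply cell_disjoint
      rintro rfl
      exact (Finset.disjoint_left.1 (hdis i hi j hj hij)) hw' hw
  have T3 := til_union A _ _ _ _ T1 T2 (by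
    simp only [Set.disjoint_iUnion_right]
    intro j hj
    simp only [Set.disjoint_iUnion_left]
    intro w hw
    rw [hblock j]
    simp only [Set.disjoint_iUnion_right]
    intro w' hw'
    apply cell_disjoint
    rintro rfl
    rw [hG, Finset.mem_sdiff] at hw
    exact hw.2 (Finset.mem_biUnion.2 ⟨j, hj, hw'⟩))
  have hcount : ∑ w ∈ G, 1 + ∑ j ∈ s, p ^ 3 = n := by
    simp only [Finset.sum_const, smul_eq_mul, mul_one]
    omega
  rw [hcount] at T3
  have hset : (⋃ w ∈ G, hc (fun m => ((w m : ℕ) : ℝ)) 1) ∪ (⋃ j ∈ s, hc (fun m => (z j m : ℝ)) (b j))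
      = hc 0 t := by
    have e0 : hc 0 (t : ℝ) = hc (fun m => (((0 : Fin 3 → ℕ) m : ℕ) : ℝ)) t := by
      congr 1; funext m; simp
    rw [e0, block_eq 0 t]
    ext x
    simp only [Set.mem_union, Set.mem_iUnion, exists_prop]
    constructor
    · rintro (⟨w, hw, hx⟩ | ⟨j, hj, hx⟩)
      · exact ⟨w, (Finset.mem_sdiff.1 hw).1, hx⟩
      · rw [hblock j] at hx
        simp only [Set.mem_iUnion, exists_prop] at hx
        obtain ⟨w, hw, hx⟩ := hx
        exact ⟨w, hsub j hj hw, hx⟩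
    · rintro ⟨w, hw, hx⟩
      by_cases hwU : w ∈ U
      · obtain ⟨j, hj, hwj⟩ := Finset.mem_biUnion.1 hwU
        right
        refine ⟨j, hj, ?_⟩
        rw [hblock j]
        simp only [Set.mem_iUnion, exists_prop]
        exact ⟨w, hwj, hx⟩
      · left
        exact ⟨w, Finset.mem_sdiff.2 ⟨hw, hwU⟩, hx⟩
  rwa [hset] at T3

/-- scaling -/
theorem til_scale (A : Set ℝ) (n : ℕ) (S : Set (Fin 3 → ℝ)) (t : ℝ) (ht : 0 < t) (h : Til A n S) :
    Til ((fun a => a / t) '' A) n ((fun x : Fin 3 → ℝ => fun m => x m / t) '' S) := by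
  obtain ⟨c, a, h1, h2, h3⟩ := h
  have key : ∀ i, hc (fun m => c i m / t) (a i / t) = (fun x : Fin 3 → ℝ => fun m => x m / t) '' hc (c i) (a i) := by
    intro i
    ext x
    simp only [Set.mem_image]
    constructor
    · intro hx
      refine ⟨fun m => x m * t, ?_, ?_⟩
      · intro m
        obtain ⟨h4, h5⟩ := hx m
        rw [div_le_iff₀ ht] at h4
        rw [← add_div, lt_div_iff₀ ht] at h5
        exact ⟨h4, h5⟩
      · funext m; field_simp
    · rintro ⟨y, hy, rfl⟩ m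
      obtain ⟨h4, h5⟩ := hy m
      refine ⟨div_le_div_of_nonneg_right h4 ht.le, ?_⟩
      rw [← add_div]
      exact div_lt_div_of_pos_right h5 ht
  have hinj : Function.Injective (fun x : Fin 3 → ℝ => fun m => x m / t) := by
    intro x y hxy
    funext m
    have := congrFun hxy m
    simp only at this
    field_simp at this
    exact this
  refine ⟨fun i m => c i m / t, fun i => a i / t, fun i => ⟨a i, h1 i, rfl⟩, ?_, ?_⟩
  · intro i j hij
    rw [key i, key j]
    exact Set.disjoint_image_of_injective hinj (h2 i j hij)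
  · rw [← h3, Set.image_iUnion]
    exact Set.iUnion_congr key

theorem closure_hc (c : Fin 3 → ℝ) (a : ℝ) (ha : 0 < a) : closure (hc c a) = cube c a := by
  have e1 : hc c a = Set.pi Set.univ fun m => Set.Ico (c m) (c m + a) := by
    ext x; simp [hc]
  have e2 : cube c a = Set.pi Set.univ fun m => Set.Icc (c m) (c m + a) := by
    ext x; simp only [cube, Set.mem_ofPred_eq, Set.mem_pi, Set.mem_univ, true_imp_iff, Set.mem_Icc]
  rw [e1, e2, closure_pi_set]
  congr 1
  funext m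
  exact closure_Ico (by linarith)

theorem interior_cube (c : Fin 3 → ℝ) (a : ℝ) : interior (cube c a) ⊆ hc c a := by
  have e2 : cube c a = Set.pi Set.univ fun m => Set.Icc (c m) (c m + a) := by
    ext x; simp only [cube, Set.mem_ofPred_eq, Set.mem_pi, Set.mem_univ, true_imp_iff, Set.mem_Icc]
  rw [e2, interior_pi_set Set.finite_univ]
  intro x hx m
  have := hx m (Set.mem_univ m)
  simp only [interior_Icc] at this
  exact ⟨this.1.le, this.2⟩

theorem isTiling_of_til (A : Set ℝ) (hA : ∀ a ∈ A, 0 < a) (n : ℕ) (h : Til A n (hc 0 1)) :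
    ∃ (c : Fin n → Fin 3 → ℝ) (a : Fin n → ℝ), IsTiling n c a ∧ ∀ i, a i ∈ A := by
  obtain ⟨c, a, h1, h2, h3⟩ := h
  refine ⟨c, a, ⟨fun i => hA _ (h1 i), ?_, ?_⟩, h1⟩
  · intro i j hij
    exact Disjoint.mono (interior_cube _ _) (interior_cube _ _) (h2 i j hij)
  · rw [← closure_hc 0 1 one_pos, ← h3, closure_iUnion_of_finite]
    exact Set.iUnion_congr fun i => (closure_hc _ _ (hA _ (h1 i))).symm

/-- arithmetic -/
theorem arith (A B r : ℕ) (hA : 0 < A) (hB : 0 < B) (hr : 0 < r) (hAB : Nat.Coprime A B) :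
    ∃ N, ∀ n ≥ N, ∃ t x y : ℕ, 0 < t ∧ n + x * A + y * B = t ^ 3 ∧ x + y ≤ (t / r) ^ 3 := by
  refine ⟨(r * (12 * r ^ 2 + A * B + 1)) ^ 3, fun n hn => ?_⟩
  have hex : ∃ t : ℕ, n + A * B ≤ t ^ 3 := ⟨n + A * B, Nat.le_self_pow (by norm_num) _⟩
  classical
  set t := Nat.find hex with ht
  have h1 : n + A * B ≤ t ^ 3 := Nat.find_spec hex
  have h2 : ∀ u < t, u ^ 3 < n + A * B := fun u hu => not_le.1 (Nat.find_min hex hu)
  have htbig : r * (12 * r ^ 2 + A * B + 1) ≤ t := by
    by_contra hlt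
    push Not at hlt
    have : t ^ 3 < (r * (12 * r ^ 2 + A * B + 1)) ^ 3 := Nat.pow_lt_pow_left hlt (by norm_num)
    have hAB0 : 0 < A * B := Nat.mul_pos hA hB
    omega
  have htpos : 0 < t := lt_of_lt_of_le (Nat.mul_pos hr (by positivity)) htbig
  obtain ⟨u, hu⟩ : ∃ u, t = u + 1 := ⟨t - 1, by omega⟩
  have h3 := h2 u (by omega)
  have h4 : t ^ 3 < n + A * B + 3 * t ^ 2 := by
    have : t ^ 3 ≤ u ^ 3 + 3 * t ^ 2 := by rw [hu]; ring_nf; omega
    omega
  -- D = t^3 - n
  obtain ⟨D, hD⟩ : ∃ D, t ^ 3 = n + D := ⟨t ^ 3 - n, by omega⟩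
  have hDge : A * B ≤ D := by omega
  obtain ⟨x, y, hxy⟩ : ∃ x y : ℕ, D = x * A + y * B := by
    obtain ⟨a, b, hab⟩ := Nat.exists_add_mul_eq_of_gcd_dvd_of_mul_pred_le A B D
      (by rw [Nat.Coprime] at hAB; rw [hAB]; exact one_dvd D)
      (le_trans (Nat.mul_le_mul (Nat.pred_le _) (Nat.pred_le _)) hDge)
    exact ⟨a, b, hab.symm⟩
  refine ⟨t, x, y, htpos, by omega, ?_⟩
  set m := t / r with hm
  have hm1 : 12 * r ^ 2 + A * B + 1 ≤ m := by
    rw [hm, Nat.le_div_iff_mul_le hr]; linarith [htbig]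
  have hm2 : t < r * (m + 1) := by
    rw [hm]; exact Nat.lt_mul_div_succ t hr
  have hxD : x + y ≤ D := by
    rw [hxy]
    exact Nat.add_le_add (Nat.le_mul_of_pos_right x hA) (Nat.le_mul_of_pos_right y hB)
  have h5 : D < A * B + 3 * t ^ 2 := by omega
  have h6 : t ^ 2 ≤ r ^ 2 * (4 * m ^ 2) := by
    have : t ≤ r * (2 * m) := le_trans hm2.le (Nat.mul_le_mul_left r (by omega))
    calc t ^ 2 ≤ (r * (2 * m)) ^ 2 := Nat.pow_le_pow_left this 2
      _ = r ^ 2 * (4 * m ^ 2) := by ring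
  have h7 : A * B + 3 * (r ^ 2 * (4 * m ^ 2)) ≤ m ^ 3 := by
    have hmpos : 1 ≤ m ^ 2 := Nat.one_le_pow _ _ (by omega)
    have e1 : A * B ≤ (A * B) * m ^ 2 := Nat.le_mul_of_pos_right _ hmpos
    calc A * B + 3 * (r ^ 2 * (4 * m ^ 2)) = A * B + 12 * r ^ 2 * m ^ 2 := by ring
      _ ≤ (A * B) * m ^ 2 + 12 * r ^ 2 * m ^ 2 := Nat.add_le_add_right e1 _
      _ = (12 * r ^ 2 + A * B) * m ^ 2 := by ring
      _ ≤ m * m ^ 2 := Nat.mul_le_mul_right _ (by omega)
      _ = m ^ 3 := by ring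
  omega

theorem coprime_AB (k : ℕ) : Nat.Coprime (3 * k ^ 2 + 3 * k + 1) (6 * k ^ 2 + 12 * k + 8) := by
  rw [Nat.coprime_iff_gcd_eq_one]
  set g := Nat.gcd (3 * k ^ 2 + 3 * k + 1) (6 * k ^ 2 + 12 * k + 8) with hg
  have h1 : g ∣ 3 * k ^ 2 + 3 * k + 1 := Nat.gcd_dvd_left _ _
  have h2 : g ∣ 6 * k ^ 2 + 12 * k + 8 := Nat.gcd_dvd_right _ _
  have h3 : g ∣ 2 := by
    have e : (2 + 2 * k) * (3 * k ^ 2 + 3 * k + 1) = k * (6 * k ^ 2 + 12 * k + 8) + 2 := by ring
    have h4 : g ∣ k * (6 * k ^ 2 + 12 * k + 8) + 2 := by rw [← e]; exact h1.mul_left _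
    exact (Nat.dvd_add_right (h2.mul_left k)).1 h4
  have hodd : Odd (3 * k ^ 2 + 3 * k + 1) := by
    have : Even (k * (k + 1)) := Nat.even_mul_succ_self k
    obtain ⟨u, hu⟩ := this
    exact ⟨3 * u, by nlinarith⟩
  have hg2 : g ≤ 2 := Nat.le_of_dvd (by norm_num) h3
  have hg0 : g ≠ 0 := by
    rintro h0
    rw [h0] at h3
    exact absurd (Nat.eq_zero_of_zero_dvd h3) (by norm_num)
  have hg2' : g ≠ 2 := by
    intro h
    rw [h] at h1
    exact (Nat.not_even_iff_odd.2 hodd) (even_iff_two_dvd.2 h1)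
  omega

/-- for each `k ≥ 1`: tilings with at most three sizes and ratio at most `1 + 2/k` -/
theorem tilings (k : ℕ) (hk : 0 < k) : ∃ N, ∀ n ≥ N, ∃ (c : Fin n → Fin 3 → ℝ) (a : Fin n → ℝ),
    IsTiling n c a ∧ (Set.range a).ncard ≤ 3 ∧ ∀ i j, a i ≤ (1 + 2 / (k : ℝ)) * a j := by
  classical
  obtain ⟨N, hN⟩ := arith (3 * k ^ 2 + 3 * k + 1) (6 * k ^ 2 + 12 * k + 8) (k + 2) (by positivity)
    (by positivity) (by positivity) (coprime_AB k)
  refine ⟨N, fun n hn => ?_⟩
  obtain ⟨t, x, y, ht, h1, h2⟩ := hN n hn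
  set m := t / (k + 2) with hm
  have hmt : (k + 2) * m ≤ t := Nat.mul_div_le t (k + 2)
  obtain ⟨J, hJ, hJc⟩ : ∃ J : Finset (Fin 3 → Fin m), J ⊆ Finset.univ ∧ J.card = x + y :=
    Finset.exists_subset_card_eq (by simpa using h2)
  obtain ⟨X, hX, hXc⟩ : ∃ X ⊆ J, X.card = x := Finset.exists_subset_card_eq (by omega)
  set A : Set ℝ := {1, ((k + 1 : ℕ) : ℝ) / k, ((k + 2 : ℕ) : ℝ) / k} with hA
  have hk' : (0 : ℝ) < k := by exact_mod_cast hk
  have ht' : (0 : ℝ) < t := by exact_mod_cast ht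
  have T := til_main A (by simp [hA]) t k hk J (fun j m => (k + 2) * (j m : ℕ))
    (fun j => if j ∈ X then k + 1 else k + 2) (fun j _ => by split_ifs <;> omega)
    (fun j _ => by
      simp only [hA, Set.mem_insert_iff, Set.mem_singleton_iff]
      split_ifs
      · right; left; rfl
      · right; right; rfl)
    (fun j _ => by
      intro w hw
      rw [mem_cells] at hw ⊢
      intro q
      have h3 := hw q
      have h4 : (j q : ℕ) + 1 ≤ m := (j q).2
      have h5 : (k + 2) * ((j q : ℕ) + 1) ≤ (k + 2) * m := Nat.mul_le_mul_left _ h4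
      refine ⟨Nat.zero_le _, ?_⟩
      have h6 : (if j ∈ X then k + 1 else k + 2) ≤ k + 2 := by split_ifs <;> omega
      have h7 : w q < (k + 2) * (j q : ℕ) + (k + 2) := lt_of_lt_of_le h3.2 (by omega)
      simp only [Pi.zero_apply, zero_add]
      have h8 : (k + 2) * (j q : ℕ) + (k + 2) = (k + 2) * ((j q : ℕ) + 1) := by ring
      omega)
    (fun i _ j _ hij => by
      rw [Finset.disjoint_left]
      intro w hw hw'
      rw [mem_cells] at hw hw'
      apply hij
      funext q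
      have h3 := hw q
      have h4 := hw' q
      have h6 : (if i ∈ X then k + 1 else k + 2) ≤ k + 2 := by split_ifs <;> omega
      have h6' : (if j ∈ X then k + 1 else k + 2) ≤ k + 2 := by split_ifs <;> omega
      have e1 : (k + 2) * (i q : ℕ) < (k + 2) * ((j q : ℕ) + 1) := by
        have : (k + 2) * ((j q : ℕ) + 1) = (k + 2) * (j q : ℕ) + (k + 2) := by ring
        omega
      have e2 : (k + 2) * (j q : ℕ) < (k + 2) * ((i q : ℕ) + 1) := by
        have : (k + 2) * ((i q : ℕ) + 1) = (k + 2) * (i q : ℕ) + (k + 2) := by ring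
        omega
      have e3 := Nat.lt_of_mul_lt_mul_left e1
      have e4 := Nat.lt_of_mul_lt_mul_left e2
      exact Fin.ext (by omega))
    n (by
      have hs : ∑ j ∈ J, (if j ∈ X then k + 1 else k + 2) ^ 3 = x * (k + 1) ^ 3 + y * (k + 2) ^ 3 := by
        have : ∀ j ∈ J, (if j ∈ X then k + 1 else k + 2) ^ 3 = if j ∈ X then (k + 1) ^ 3 else (k + 2) ^ 3 := by
          intro j _; split_ifs <;> rfl
        rw [Finset.sum_congr rfl this, Finset.sum_ite, Finset.sum_const, Finset.sum_const]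
        have e1 : (J.filter fun j => j ∈ X) = X := by
          ext j; simp only [Finset.mem_filter]; exact ⟨fun h => h.2, fun h => ⟨hX h, h⟩⟩
        have e2 : (J.filter fun j => j ∉ X).card = y := by
          have := Finset.card_filter_add_card_filter_not (s := J) (fun j => j ∈ X)
          rw [e1] at this
          omega
        rw [e1, e2, hXc]
        simp
      rw [hs, hJc]
      have : n + x * (3 * k ^ 2 + 3 * k + 1) + y * (6 * k ^ 2 + 12 * k + 8) + (x + y) * k ^ 3
        = n + (x * (k + 1) ^ 3 + y * (k + 2) ^ 3) := by ring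
      rw [← this, h1])
  have T' := til_scale A n (hc 0 t) t ht' T
  have e : (fun x : Fin 3 → ℝ => fun m => x m / t) '' hc 0 t = hc 0 1 := by
    ext x
    simp only [Set.mem_image, hc, Set.mem_ofPred_eq, Pi.zero_apply, zero_add]
    constructor
    · rintro ⟨y, hy, rfl⟩ m
      exact ⟨div_nonneg (hy m).1 ht'.le, (div_lt_one ht').2 (hy m).2⟩
    · intro hx
      refine ⟨fun m => x m * t, fun m => ⟨mul_nonneg (hx m).1 ht'.le, ?_⟩, ?_⟩
      · have := mul_lt_mul_of_pos_right (hx m).2 ht'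
        linarith
      · funext m; field_simp
  rw [e] at T'
  have hApos : ∀ a ∈ (fun a => a / (t : ℝ)) '' A, 0 < a := by
    rintro _ ⟨a, ha, rfl⟩
    simp only [hA, Set.mem_insert_iff, Set.mem_singleton_iff] at ha
    apply div_pos _ ht'
    rcases ha with rfl | rfl | rfl
    · exact one_pos
    · positivity
    · positivity
  obtain ⟨c, a, hT, ha⟩ := isTiling_of_til _ hApos n T'
  refine ⟨c, a, hT, ?_, ?_⟩
  · have hfin : ((fun a => a / (t : ℝ)) '' A).Finite := Set.Finite.image _ (by simp [hA])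
    calc (Set.range a).ncard ≤ ((fun a => a / (t : ℝ)) '' A).ncard :=
          Set.ncard_le_ncard (Set.range_subset_iff.2 ha) hfin
      _ ≤ A.ncard := Set.ncard_image_le (by simp [hA])
      _ ≤ 3 := by rw [hA]; exact Set.ncard_insert_le _ _ |>.trans (by
            have := Set.ncard_insert_le (((k + 1 : ℕ) : ℝ) / k) {((k + 2 : ℕ) : ℝ) / k}
            rw [Set.ncard_singleton] at this
            omega)
  · have hb : ∀ i, 1 / (t : ℝ) ≤ a i ∧ a i ≤ (1 + 2 / (k : ℝ)) * (1 / t) := by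
      intro i
      obtain ⟨b, hb, hab⟩ := ha i
      simp only at hab
      have : 1 ≤ b ∧ b ≤ 1 + 2 / (k : ℝ) := by
        simp only [hA, Set.mem_insert_iff, Set.mem_singleton_iff] at hb
        rcases hb with rfl | rfl | rfl
        · exact ⟨le_refl _, by have : 0 < 2 / (k : ℝ) := by positivity
                               linarith⟩
        · push_cast
          constructor
          · rw [le_div_iff₀ hk']; linarith
          · rw [div_le_iff₀ hk']; field_simp; linarith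
        · push_cast
          constructor
          · rw [le_div_iff₀ hk']; linarith
          · rw [div_le_iff₀ hk']; field_simp; linarith
      rw [← hab]
      constructor
      · exact div_le_div_of_nonneg_right this.1 ht'.le
      · rw [div_eq_mul_one_div b]
        exact mul_le_mul_of_nonneg_right this.2 (by positivity)
    intro i j
    calc a i ≤ (1 + 2 / (k : ℝ)) * (1 / t) := (hb i).2
      _ ≤ (1 + 2 / (k : ℝ)) * a j := mul_le_mul_of_nonneg_left (hb j).1 (by positivity)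

/-- Q1: three sizes suffice with ratio tending to 1: there are `n₀` and, for every `n ≥ n₀`, a tiling of the unit
cube by exactly `n` cubes of at most three different sizes, such that the ratio of the largest to the smallest side
tends to 1 as `n → ∞`. -/
theorem result : ∃ (n₀ : ℕ) (c : (n : ℕ) → Fin n → Fin 3 → ℝ) (a : (n : ℕ) → Fin n → ℝ),
    (∀ n ≥ n₀, IsTiling n (c n) (a n) ∧ (Set.range (a n)).ncard ≤ 3) ∧
    ∀ ε > 0, ∃ N, ∀ n ≥ N, ∀ i j, a n i ≤ (1 + ε) * a n j := by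
  classical
  have h := fun k : ℕ => tilings (k + 1) (Nat.succ_pos k)
  choose N hN using h
  -- monotone thresholds
  let M : ℕ → ℕ := fun k => ∑ i ∈ Finset.range (k + 1), N i + k
  have hM : ∀ k, N k ≤ M k := by
    intro k
    have : N k ≤ ∑ i ∈ Finset.range (k + 1), N i :=
      Finset.single_le_sum (f := N) (fun _ _ => Nat.zero_le _) (Finset.mem_range.2 (Nat.lt_succ_self k))
    exact le_trans this (Nat.le_add_right _ _)
  let K : ℕ → ℕ := fun n => Nat.findGreatest (fun k => M k ≤ n) n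
  have hK0 : ∀ n ≥ M 0, M (K n) ≤ n := by
    intro n hn
    exact Nat.findGreatest_spec (P := fun k => M k ≤ n) (Nat.zero_le n) hn
  have hK1 : ∀ k n, M k ≤ n → k ≤ K n := by
    intro k n hkn
    exact Nat.le_findGreatest (le_trans (Nat.le_add_left _ _) hkn) hkn
  have hex : ∀ n, ∃ (c : Fin n → Fin 3 → ℝ) (a : Fin n → ℝ), n ≥ M 0 →
      (IsTiling n c a ∧ (Set.range a).ncard ≤ 3 ∧ ∀ i j, a i ≤ (1 + 2 / ((K n + 1 : ℕ) : ℝ)) * a j) := by
    intro n
    by_cases hn : n ≥ M 0
    · obtain ⟨c, a, h⟩ := hN (K n) n (le_trans (hM _) (hK0 n hn))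
      exact ⟨c, a, fun _ => h⟩
    · exact ⟨fun _ _ => 0, fun _ => 0, fun h => absurd h hn⟩
  choose c a hca using hex
  refine ⟨M 0, c, a, fun n hn => ⟨(hca n hn).1, (hca n hn).2.1⟩, ?_⟩
  intro ε hε
  obtain ⟨k, hk⟩ := exists_nat_gt (2 / ε)
  refine ⟨max (M 0) (M k), fun n hn i j => ?_⟩
  have hn0 : n ≥ M 0 := le_trans (le_max_left _ _) hn
  have hnk : M k ≤ n := le_trans (le_max_right _ _) hn
  have h1 := (hca n hn0).2.2 i j
  have h2 := hK1 k n hnk
  have h3 : 2 / ((K n + 1 : ℕ) : ℝ) ≤ ε := by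
    rw [div_le_iff₀ (by positivity)]
    rw [div_lt_iff₀ hε] at hk
    have : (k : ℝ) ≤ ((K n + 1 : ℕ) : ℝ) := by exact_mod_cast Nat.le_succ_of_le h2
    nlinarith
  have hpos := (hca n hn0).1.1 j
  refine le_trans h1 (mul_le_mul_of_nonneg_right (by linarith) hpos.le)

end Pool.Agent.Results.MP_695dce_co.ThreeSizes
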